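import Mathlib

/-!
# Space-like limit directions outside of the unimodular eigendirections

For the Coxeter group `PGL(2, ℤ)` (the `(2, 3, ∞)` triangle group), acting on binary quadratic
forms, the direction of `X (X - √2 Y)` is a limit direction, but it is neither a limit root nor
orthogonal to the two light-like eigenvectors of a hyperbolic element.
-/

namespace Pool.Agent.Results.MP_de6c1e_al.SpacelikeLimit

open Filter Topology LinearMap

open scoped LinearAlgebra.Projectivization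

/-! ### General definitions -/

section defs

variable {n : ℕ}

/-- The matrix `B_{st}` of the geometric Coxeter system given by the exponents `M`
(Mathlib encodes `∞` by `0`) and the numbers `c_{st}`. -/
noncomputable def gram (M : CoxeterMatrix (Fin n)) (c : Fin n → Fin n → ℝ) (s t : Fin n) : ℝ :=
  if M s t = 0 then -c s t else -Real.cos (Real.pi / M s t)

/-- The bilinear form on `V = ℝ^n`; the simple root `α_s` is the standard basis vector. -/
noncomputable def bil (M : CoxeterMatrix (Fin n)) (c : Fin n → Fin n → ℝ)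
    (x y : Fin n → ℝ) : ℝ := ∑ s, ∑ t, x s * gram M c s t * y t

/-- The simple root `α_s`. -/
def root (s : Fin n) : Fin n → ℝ := Pi.single s 1

/-- The reflection `σ_{α_s}`. -/
noncomputable def refl (M : CoxeterMatrix (Fin n)) (c : Fin n → Fin n → ℝ) (s : Fin n) :
    Module.End ℝ (Fin n → ℝ) where
  toFun x := x - (2 * bil M c x (root s) / bil M c (root s) (root s)) • root s
  map_add' x y := by
    have h : bil M c (x + y) (root s) = bil M c x (root s) + bil M c y (root s) := by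
      simp only [bil, Pi.add_apply, add_mul, Finset.sum_add_distrib]
    rw [h, mul_add, add_div, add_smul]
    abel
  map_smul' a x := by
    have h : bil M c (a • x) (root s) = a * bil M c x (root s) := by
      simp only [bil, Pi.smul_apply, smul_eq_mul, Finset.mul_sum, mul_assoc]
    rw [h, RingHom.id_apply, smul_sub, smul_smul]
    congr 2
    ring

/-- The numbers `c_{st}` are symmetric and at least `1` where they are used. -/
structure IsGeometric (M : CoxeterMatrix (Fin n)) (c : Fin n → Fin n → ℝ) : Prop where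
  symm : ∀ s t, c s t = c t s
  one_le : ∀ s t, M s t = 0 → 1 ≤ c s t

/-- The form has signature `(n - 1, 1)`. -/
def IsLorentzian (M : CoxeterMatrix (Fin n)) (c : Fin n → Fin n → ℝ) : Prop :=
  ∃ (L : (Fin n → ℝ) ≃ₗ[ℝ] (Fin n → ℝ)) (i₀ : Fin n), ∀ x,
    bil M c x x = ∑ i, if i = i₀ then -(L x i) ^ 2 else (L x i) ^ 2

/-- The image of `W` in the linear maps of `V` (the reflections are involutions, so the monoid
they generate is the group they generate). -/
noncomputable def Wim (M : CoxeterMatrix (Fin n)) (c : Fin n → Fin n → ℝ) :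
    Submonoid (Module.End ℝ (Fin n → ℝ)) := Submonoid.closure (Set.range (refl M c))

/-- The usual topology of the projective space: the quotient topology. -/
@[reducible] noncomputable def projTop (n : ℕ) : TopologicalSpace (ℙ ℝ (Fin n → ℝ)) :=
  TopologicalSpace.coinduced
    (fun v : {v : Fin n → ℝ // v ≠ 0} => Projectivization.mk ℝ v.1 v.2) inferInstance

/-- `p` lies in the orbit `W · p₀`. -/
def InOrbit (M : CoxeterMatrix (Fin n)) (c : Fin n → Fin n → ℝ) (p₀ p : ℙ ℝ (Fin n → ℝ)) :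
    Prop :=
  ∃ w ∈ Wim M c, ∃ (v : Fin n → ℝ) (hv : v ≠ 0) (hw : w v ≠ 0),
    p₀ = Projectivization.mk ℝ v hv ∧ p = Projectivization.mk ℝ (w v) hw

/-- `p` is the limit of an injective sequence of points of the orbit of `p₀`. -/
def LimitFrom (M : CoxeterMatrix (Fin n)) (c : Fin n → Fin n → ℝ) (p₀ p : ℙ ℝ (Fin n → ℝ)) :
    Prop :=
  ∃ y : ℕ → ℙ ℝ (Fin n → ℝ), Function.Injective y ∧ (∀ k, InOrbit M c p₀ (y k)) ∧
    Tendsto y atTop (@nhds _ (projTop n) p)

/-- The set `E_V` of limit directions. -/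
def EV (M : CoxeterMatrix (Fin n)) (c : Fin n → Fin n → ℝ) : Set (ℙ ℝ (Fin n → ℝ)) :=
  {p | ∃ p₀, LimitFrom M c p₀ p}

/-- The set `E_Φ` of limit roots. -/
def EPhi (M : CoxeterMatrix (Fin n)) (c : Fin n → Fin n → ℝ) : Set (ℙ ℝ (Fin n → ℝ)) :=
  {p | ∃ (s : Fin n) (hs : root s ≠ 0), LimitFrom M c (Projectivization.mk ℝ (root s) hs) p}

/-- `w` is hyperbolic, with the eigenvectors `x` and `y` for two different eigenvalues of modulus
different from `1`, one of them of modulus greater than `1`. -/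
def IsHyperbolicWith (w : Module.End ℝ (Fin n → ℝ)) (x y : Fin n → ℝ) : Prop :=
  x ≠ 0 ∧ y ≠ 0 ∧ ∃ a b : ℝ, 1 < |a| ∧ |b| ≠ 1 ∧ a ≠ b ∧ w x = a • x ∧ w y = b • y

/-- The set `𝒰_hyp`: the directions orthogonal to `x_w` and `y_w` for a hyperbolic `w`. -/
def Uhyp (M : CoxeterMatrix (Fin n)) (c : Fin n → Fin n → ℝ) : Set (ℙ ℝ (Fin n → ℝ)) :=
  {p | ∃ w ∈ Wim M c, ∃ x y : Fin n → ℝ, IsHyperbolicWith w x y ∧
    ∃ (v : Fin n → ℝ) (hv : v ≠ 0), p = Projectivization.mk ℝ v hv ∧
      bil M c v x = 0 ∧ bil M c v y = 0}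

end defs

/-! ### The example -/

/-- The Coxeter exponents of `PGL(2, ℤ)`. -/
def mat : Matrix (Fin 3) (Fin 3) ℕ := !![1, 0, 2; 0, 1, 3; 2, 3, 1]

/-- The Coxeter matrix of `PGL(2, ℤ)`. -/
def M : CoxeterMatrix (Fin 3) where
  M := mat
  isSymm := by decide
  diagonal := by decide
  off_diagonal := by
    intro i j
    fin_cases i <;> fin_cases j <;> simp [mat]

/-- All numbers `c_{st}` are `1`. -/
def c : Fin 3 → Fin 3 → ℝ := fun _ _ => 1

theorem gram_val : (gram M c 0 0 = 1 ∧ gram M c 0 1 = -1 ∧ gram M c 0 2 = 0) ∧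
    (gram M c 1 0 = -1 ∧ gram M c 1 1 = 1 ∧ gram M c 1 2 = -(1 / 2)) ∧
    (gram M c 2 0 = 0 ∧ gram M c 2 1 = -(1 / 2) ∧ gram M c 2 2 = 1) := by
  have h00 : M 0 0 = 1 := rfl
  have h01 : M 0 1 = 0 := rfl
  have h02 : M 0 2 = 2 := rfl
  have h10 : M 1 0 = 0 := rfl
  have h11 : M 1 1 = 1 := rfl
  have h12 : M 1 2 = 3 := rfl
  have h20 : M 2 0 = 2 := rfl
  have h21 : M 2 1 = 3 := rfl
  have h22 : M 2 2 = 1 := rfl
  simp only [gram, h00, h01, h02, h10, h11, h12, h20, h21, h22, c]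
  norm_num

theorem bil_eq (x y : Fin 3 → ℝ) : bil M c x y = x 0 * y 0 + x 1 * y 1 + x 2 * y 2 -
    (x 0 * y 1 + x 1 * y 0) - 1 / 2 * (x 1 * y 2 + x 2 * y 1) := by
  obtain ⟨⟨h1, h2, h3⟩, ⟨h4, h5, h6⟩, ⟨h7, h8, h9⟩⟩ := gram_val
  simp only [bil, Fin.sum_univ_three, h1, h2, h3, h4, h5, h6, h7, h8, h9]
  ring

theorem refl0 (x : Fin 3 → ℝ) : refl M c 0 x = ![2 * x 1 - x 0, x 1, x 2] := by
  change x - (2 * bil M c x (root 0) / bil M c (root 0) (root 0)) • root 0 = _
  rw [bil_eq, bil_eq]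
  ext i
  fin_cases i <;> simp [root] <;> ring

theorem refl1 (x : Fin 3 → ℝ) : refl M c 1 x = ![x 0, 2 * x 0 + x 2 - x 1, x 2] := by
  change x - (2 * bil M c x (root 1) / bil M c (root 1) (root 1)) • root 1 = _
  rw [bil_eq, bil_eq]
  ext i
  fin_cases i <;> simp [root] <;> ring

theorem refl2 (x : Fin 3 → ℝ) : refl M c 2 x = ![x 0, x 1, x 1 - x 2] := by
  change x - (2 * bil M c x (root 2) / bil M c (root 2) (root 2)) • root 2 = _
  rw [bil_eq, bil_eq]
  ext i
  fin_cases i <;> simp [root] <;> ring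

theorem geometric : IsGeometric M c := ⟨fun _ _ => rfl, fun _ _ _ => le_rfl⟩

theorem lorentzian : IsLorentzian M c := by
  let L : (Fin 3 → ℝ) ≃ₗ[ℝ] (Fin 3 → ℝ) :=
    { toFun := fun x => ![x 0 - x 1, x 1 / 2 - x 2, x 1 / 2]
      invFun := fun u => ![u 0 + 2 * u 2, 2 * u 2, u 2 - u 1]
      map_add' := by
        intro x y
        ext i
        fin_cases i <;> simp <;> ring
      map_smul' := by
        intro a x
        ext i
        fin_cases i <;> simp <;> ring
      left_inv := by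
        intro x
        ext i
        fin_cases i <;> simp <;> ring
      right_inv := by
        intro x
        ext i
        fin_cases i <;> simp }
  refine ⟨L, 2, fun x => ?_⟩
  have hL : ∀ i, L x i = (![x 0 - x 1, x 1 / 2 - x 2, x 1 / 2] : Fin 3 → ℝ) i := fun _ => rfl
  rw [bil_eq, Fin.sum_univ_three, hL, hL, hL]
  simp
  ring

/-! ### Quadratic forms -/

/-- The vector of the form `A X² + B X Y + C Y²`. -/
def Psi (A B C : ℝ) : Fin 3 → ℝ := ![B - 2 * A - 2 * C, -2 * A - 2 * C, -2 * A]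

theorem Psi_refl0 (A B C : ℝ) : refl M c 0 (Psi A B C) = Psi A (-B) C := by
  rw [refl0]; ext i; fin_cases i <;> simp [Psi] <;> ring

theorem Psi_refl1 (A B C : ℝ) : refl M c 1 (Psi A B C) = Psi A (2 * A - B) (A - B + C) := by
  rw [refl1]; ext i; fin_cases i <;> simp [Psi] <;> ring

theorem Psi_refl2 (A B C : ℝ) : refl M c 2 (Psi A B C) = Psi C B A := by
  rw [refl2]; ext i; fin_cases i <;> simp [Psi] <;> ring

theorem Psi_smul (t A B C : ℝ) : Psi (t * A) (t * B) (t * C) = t • Psi A B C := by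
  ext i; fin_cases i <;> simp [Psi] <;> ring

/-- substitution of an integral matrix -/
def sub (g : Matrix (Fin 2) (Fin 2) ℤ) (A B C : ℝ) : Fin 3 → ℝ :=
  Psi (A * g 0 0 ^ 2 + B * g 0 0 * g 1 0 + C * g 1 0 ^ 2)
    (2 * A * g 0 0 * g 0 1 + B * (g 0 0 * g 1 1 + g 0 1 * g 1 0) + 2 * C * g 1 0 * g 1 1)
    (A * g 0 1 ^ 2 + B * g 0 1 * g 1 1 + C * g 1 1 ^ 2)

theorem refl_mem (s : Fin 3) : refl M c s ∈ Wim M c := Submonoid.subset_closure ⟨s, rfl⟩

/-- every element of `SL(2, ℤ)` acts through `W` -/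
theorem exists_w (g : Matrix.SpecialLinearGroup (Fin 2) ℤ) : ∃ w ∈ Wim M c,
    ∀ A B C : ℝ, w (Psi A B C) = sub g A B C := by
  have hg : g ∈ Subgroup.closure {ModularGroup.S, ModularGroup.T} := by
    rw [SpecialLinearGroup.SL2Z_generators]
    trivial
  have key : (∃ w ∈ Wim M c, ∀ A B C : ℝ, w (Psi A B C) = sub g A B C) ∧
      (∃ w ∈ Wim M c, ∀ A B C : ℝ, w (Psi A B C) = sub (g⁻¹ : Matrix.SpecialLinearGroup (Fin 2) ℤ)
        A B C) := by
    induction hg using Subgroup.closure_induction with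
    | mem x hx =>
      rcases hx with rfl | rfl
      · refine ⟨⟨refl M c 2 * refl M c 0, mul_mem (refl_mem 2) (refl_mem 0), ?_⟩,
          ⟨refl M c 2 * refl M c 0, mul_mem (refl_mem 2) (refl_mem 0), ?_⟩⟩
        · intro A B C
          rw [Module.End.mul_apply, Psi_refl0, Psi_refl2, sub]
          simp [ModularGroup.S]
        · intro A B C
          rw [Module.End.mul_apply, Psi_refl0, Psi_refl2, sub, Matrix.SpecialLinearGroup.coe_inv,
            Matrix.adjugate_fin_two]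
          simp [ModularGroup.S]
      · refine ⟨⟨refl M c 1 * refl M c 0, mul_mem (refl_mem 1) (refl_mem 0), ?_⟩,
          ⟨refl M c 0 * refl M c 1, mul_mem (refl_mem 0) (refl_mem 1), ?_⟩⟩
        · intro A B C
          rw [Module.End.mul_apply, Psi_refl0, Psi_refl1, sub]
          simp [ModularGroup.T]
        · intro A B C
          rw [Module.End.mul_apply, Psi_refl1, Psi_refl0, sub, Matrix.SpecialLinearGroup.coe_inv,
            Matrix.adjugate_fin_two]
          simp [ModularGroup.T]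
          congr 1 <;> ring
    | one =>
      refine ⟨⟨1, one_mem _, ?_⟩, ⟨1, one_mem _, ?_⟩⟩
      · intro A B C; simp [sub]
      · intro A B C; simp [sub]
    | mul x y _ _ hx hy =>
      have comp : ∀ (x y : Matrix (Fin 2) (Fin 2) ℤ) (w v : Module.End ℝ (Fin 3 → ℝ)),
          (∀ A B C : ℝ, w (Psi A B C) = sub x A B C) →
          (∀ A B C : ℝ, v (Psi A B C) = sub y A B C) →
          ∀ A B C : ℝ, (v * w) (Psi A B C) = sub (x * y) A B C := by
        intro x y w v hw hv A B C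
        rw [Module.End.mul_apply, hw, sub, hv, sub, sub]
        simp only [Matrix.mul_apply, Fin.sum_univ_two]
        push_cast
        congr 1 <;> ring
      obtain ⟨⟨w, hw, h1⟩, ⟨w', hw', h1'⟩⟩ := hx
      obtain ⟨⟨v, hv, h2⟩, ⟨v', hv', h2'⟩⟩ := hy
      refine ⟨⟨v * w, mul_mem hv hw, ?_⟩, ⟨w' * v', mul_mem hw' hv', ?_⟩⟩
      · exact comp _ _ w v h1 h2
      · rw [mul_inv_rev]
        exact comp _ _ v' w' h2' h1'
    | inv x _ hx =>
      rw [inv_inv]
      exact ⟨hx.2, hx.1⟩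
  exact key.1

/-! ### A base point with a large orbit -/

/-- the integral matrix `(p q; r s)` sends the form `Y (X - ξ Y)` to a multiple of
`(X + a Y) (X + b Y)` with `|a| < δ` and `|b + √2| < δ`, `a ≠ 0` -/
def Good (xi δ : ℝ) : Prop :=
  ∃ p q r s : ℤ, p * s - q * r = 1 ∧ r ≠ 0 ∧ s ≠ 0 ∧ (p : ℝ) - xi * r ≠ 0 ∧
    |(s : ℝ) / r| < δ ∧ |((q : ℝ) - xi * s) / (p - xi * r) + √2| < δ

theorem good_open (δ : ℝ) : IsOpen {xi : ℝ | Good xi δ} := by
  have : {xi : ℝ | Good xi δ} = ⋃ (p : ℤ) (q : ℤ) (r : ℤ) (s : ℤ)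
      (_ : p * s - q * r = 1 ∧ r ≠ 0 ∧ s ≠ 0 ∧ |(s : ℝ) / r| < δ),
      {xi : ℝ | (p : ℝ) - xi * r ≠ 0 ∧ |((q : ℝ) - xi * s) / (p - xi * r) + √2| < δ} := by
    ext xi
    simp only [Good, Set.mem_setOf_eq, Set.mem_iUnion, exists_prop]
    constructor
    · rintro ⟨p, q, r, s, h1, h2, h3, h4, h5, h6⟩
      exact ⟨p, q, r, s, ⟨h1, h2, h3, h5⟩, h4, h6⟩
    · rintro ⟨p, q, r, s, ⟨h1, h2, h3, h5⟩, h4, h6⟩
      exact ⟨p, q, r, s, h1, h2, h3, h4, h5, h6⟩
  rw [this]
  refine isOpen_iUnion fun p => isOpen_iUnion fun q => isOpen_iUnion fun r => isOpen_iUnion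
    fun s => isOpen_iUnion fun _ => ?_
  rw [isOpen_iff_mem_nhds]
  rintro xi ⟨h1, h2⟩
  have c1 : ContinuousAt (fun xi : ℝ => (p : ℝ) - xi * r) xi := by fun_prop
  have c2 : ContinuousAt (fun xi : ℝ => |((q : ℝ) - xi * s) / (p - xi * r) + √2|) xi := by
    fun_prop (disch := exact h1)
  filter_upwards [c1.eventually_ne h1, c2.eventually_lt continuousAt_const h2] with x hx hx'
  exact ⟨hx, hx'⟩

theorem good_dense (δ : ℝ) (hδ : 0 < δ) : Dense {xi : ℝ | Good xi δ} := by
  rw [Metric.dense_iff]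
  intro x ε hε
  obtain ⟨z, hz1, hz2⟩ := exists_rat_btwn (show x - ε / 2 < x + ε / 2 by linarith)
  have hs : (0 : ℝ) < z.den := by exact_mod_cast z.den_pos
  have hs1 : (1 : ℝ) ≤ z.den := by exact_mod_cast z.den_pos
  obtain ⟨p0, r0, hb⟩ : ∃ p0 r0 : ℤ, p0 * z.den - z.num * r0 = 1 := by
    have h1 : IsCoprime (z.den : ℤ) z.num := by
      rw [Int.isCoprime_iff_gcd_eq_one]
      have := z.reduced
      rw [Int.gcd_comm]
      exact this
    obtain ⟨u, v, h⟩ := h1
    exact ⟨u, -v, by linarith⟩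
  obtain ⟨K, hK⟩ := exists_nat_gt (max (z.den / δ) (2 / ε))
  have hK1 : z.den / δ < K := (le_max_left _ _).trans_lt hK
  have hK2 : 2 / ε < K := (le_max_right _ _).trans_lt hK
  set N : ℤ := |r0| + K with hN
  set p : ℤ := p0 + N * z.num with hp
  set r : ℤ := r0 + N * z.den with hr
  have hrK : (K : ℤ) ≤ r := by
    have h1 : (1 : ℤ) ≤ z.den := by exact_mod_cast z.den_pos
    have h2 : -|r0| ≤ r0 := neg_abs_le r0
    have h3 : 0 ≤ N := by positivity
    nlinarith
  have hrK' : (K : ℝ) ≤ r := by exact_mod_cast hrK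
  have hr0 : (0 : ℝ) < r := by
    have : 0 < 2 / ε := by positivity
    linarith
  have hdet : p * z.den - z.num * r = 1 := by
    rw [hp, hr]; linarith
  have hdet' : (p : ℝ) * z.den - z.num * r = 1 := by exact_mod_cast hdet
  have h2pos : 0 < √2 := by positivity
  have hden : 0 < (z.den : ℝ) + √2 * r := by positivity
  set xi : ℝ := (z.num + √2 * p) / (z.den + √2 * r) with hxi
  have hxi' : xi * (z.den + √2 * r) = z.num + √2 * p := by
    rw [hxi]; field_simp
  have hq : (z.num : ℝ) - xi * z.den = -√2 * (p - xi * r) := by linarith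
  have hp0 : (p : ℝ) - xi * r ≠ 0 := by
    intro h
    rw [h, mul_zero] at hq
    have h1 : (p : ℝ) = xi * r := by linarith
    have h2 : (z.num : ℝ) = xi * z.den := by linarith
    rw [h1, h2] at hdet'
    have : xi * r * z.den - xi * z.den * r = 0 := by ring
    linarith
  refine ⟨xi, ?_, ⟨p, z.num, r, z.den, hdet, ?_, ?_, ?_, ?_, ?_⟩⟩
  · rw [Metric.mem_ball, Real.dist_eq]
    have h1 : xi - z = √2 / (z.den * (z.den + √2 * r)) := by
      have hz : (z : ℝ) = z.num / z.den := by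
        exact_mod_cast (Rat.num_div_den z).symm
      rw [hz, hxi, div_sub_div _ _ hden.ne' hs.ne', div_eq_div_iff (by positivity) (by positivity)]
      linear_combination (√2 * (z.den * (z.den + √2 * r))) * hdet'
    have h2 : |xi - z| < ε / 2 := by
      rw [h1, abs_of_pos (by positivity), div_lt_iff₀ (by positivity)]
      have h3 : 2 < K * ε := by
        rw [div_lt_iff₀ hε] at hK2
        exact hK2
      have h4 : 2 < r * ε := by nlinarith
      have h5 : √2 * 2 < √2 * (r * ε) := by nlinarith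
      have h6 : (0 : ℝ) ≤ ε / 2 * (z.den * z.den) := by positivity
      have h7 : ε / 2 * (√2 * r) ≤ ε / 2 * (z.den * (√2 * r)) := by
        have : √2 * r ≤ z.den * (√2 * r) := by
          have : 0 ≤ √2 * r := by positivity
          nlinarith
        nlinarith
      nlinarith
    have h3 : |(z : ℝ) - x| < ε / 2 := by
      rw [abs_lt]; constructor <;> linarith
    calc |xi - x| ≤ |xi - z| + |(z : ℝ) - x| := abs_sub_le _ _ _
      _ < ε := by linarith
  · intro h; rw [h] at hr0; simp at hr0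
  · exact_mod_cast z.den_pos.ne'
  · exact hp0
  · push_cast
    rw [abs_of_pos (by positivity), div_lt_iff₀ hr0]
    rw [div_lt_iff₀ hδ] at hK1
    nlinarith
  · push_cast
    rw [hq, neg_mul, neg_div, mul_div_assoc, div_self hp0, mul_one, neg_add_cancel, abs_zero]
    exact hδ

theorem exists_xi : ∃ xi : ℝ, ∀ δ : ℝ, 0 < δ → Good xi δ := by
  have h := dense_iInter_of_isOpen_nat (f := fun n : ℕ => {xi : ℝ | Good xi (1 / (n + 1))})
    (fun n => good_open _) (fun n => good_dense _ (by positivity))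
  obtain ⟨xi, hxi⟩ := h.nonempty
  refine ⟨xi, fun δ hδ => ?_⟩
  obtain ⟨n, hn⟩ := exists_nat_one_div_lt hδ
  obtain ⟨p, q, r, s, h1, h2, h3, h4, h5, h6⟩ := Set.mem_iInter.1 hxi n
  exact ⟨p, q, r, s, h1, h2, h3, h4, h5.trans hn, h6.trans hn⟩

/-- the vectors `X² + (a + b) X Y + a b Y²` -/
def vv (a b : ℝ) : Fin 3 → ℝ := Psi 1 (a + b) (a * b)

theorem vv_ne (a b : ℝ) : vv a b ≠ 0 := by
  intro h
  have := congrFun h 2
  simp [vv, Psi] at this

theorem Psi01_ne (xi : ℝ) : Psi 0 1 (-xi) ≠ 0 := by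
  intro h
  have h1 := congrFun h 0
  have h2 := congrFun h 1
  simp [Psi] at h1 h2
  rw [h2] at h1
  simp at h1

/-- for good `ξ`, the vectors close to the target are in the orbit -/
theorem orbit_points (xi : ℝ) (h : ∀ δ : ℝ, 0 < δ → Good xi δ) (δ : ℝ) (hδ : 0 < δ) :
    ∃ a b : ℝ, a ≠ 0 ∧ |a| < δ ∧ |b + √2| < δ ∧
      InOrbit M c (Projectivization.mk ℝ (Psi 0 1 (-xi)) (Psi01_ne xi))
        (Projectivization.mk ℝ (vv a b) (vv_ne a b)) := by
  obtain ⟨p, q, r, s, hdet, hr, hs, hp, h5, h6⟩ := h δ hδ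
  have hr' : (r : ℝ) ≠ 0 := by exact_mod_cast hr
  have hs' : (s : ℝ) ≠ 0 := by exact_mod_cast hs
  refine ⟨s / r, (q - xi * s) / (p - xi * r), div_ne_zero hs' hr', h5, h6, ?_⟩
  let g : Matrix.SpecialLinearGroup (Fin 2) ℤ := ⟨!![p, q; r, s], by
    rw [Matrix.det_fin_two_of, hdet]⟩
  obtain ⟨w, hw, hw'⟩ := exists_w g
  have e : w (Psi 0 1 (-xi)) =
      ((r : ℝ) * (p - xi * r)) • vv (s / r) ((q - xi * s) / (p - xi * r)) := by
    rw [hw', sub, vv, ← Psi_smul]
    have g00 : g 0 0 = p := rfl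
    have g01 : g 0 1 = q := rfl
    have g10 : g 1 0 = r := rfl
    have g11 : g 1 1 = s := rfl
    rw [g00, g01, g10, g11]
    have d1 : ((q : ℝ) - xi * s) / (p - xi * r) * (p - xi * r) = q - xi * s :=
      div_mul_cancel₀ _ hp
    have d2 : (s : ℝ) / r * r = s := div_mul_cancel₀ _ hr'
    congr 1
    · ring
    · linear_combination (-(r : ℝ)) * d1 - (p - xi * r) * d2
    · linear_combination (-((s : ℝ) / r * r)) * d1 - (q - xi * s) * d2
  have hne : ((r : ℝ) * (p - xi * r)) ≠ 0 := mul_ne_zero hr' hp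
  have hw0 : w (Psi 0 1 (-xi)) ≠ 0 := by
    rw [e]; exact smul_ne_zero hne (vv_ne _ _)
  refine ⟨w, hw, Psi 0 1 (-xi), Psi01_ne xi, hw0, rfl, ?_⟩
  rw [Projectivization.mk_eq_mk_iff']
  refine ⟨((r : ℝ) * (p - xi * r))⁻¹, ?_⟩
  rw [e, smul_smul, inv_mul_cancel₀ hne, one_smul]

theorem target_limit : ∃ p₀, LimitFrom M c p₀
    (Projectivization.mk ℝ (vv 0 (-√2)) (vv_ne 0 (-√2))) := by
  obtain ⟨xi, hxi⟩ := exists_xi
  refine ⟨Projectivization.mk ℝ (Psi 0 1 (-xi)) (Psi01_ne xi), ?_⟩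
  let D : Type := {d : ℝ × ℝ // d.1 ≠ 0 ∧ InOrbit M c
    (Projectivization.mk ℝ (Psi 0 1 (-xi)) (Psi01_ne xi))
    (Projectivization.mk ℝ (vv d.1 d.2) (vv_ne d.1 d.2))}
  have hD : ∀ δ : ℝ, 0 < δ → ∃ d : D, |d.1.1| < δ ∧ |d.1.2 + √2| < δ := by
    intro δ hδ
    obtain ⟨a, b, h1, h2, h3, h4⟩ := orbit_points xi hxi δ hδ
    exact ⟨⟨(a, b), h1, h4⟩, h2, h3⟩
  have : Nonempty D := ⟨(hD 1 one_pos).choose⟩
  choose! F hF using hD
  let f : ℕ → D := fun k => Nat.rec (F (1 / 4)) (fun k d => F (min |d.1.1| (1 / (k + 4)))) k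
  have hf0 : f 0 = F (1 / 4) := rfl
  have hfs : ∀ k, f (k + 1) = F (min |(f k).1.1| (1 / (k + 4))) := fun k => rfl
  have hpos : ∀ (d : D) (k : ℕ), 0 < min |d.1.1| (1 / ((k : ℝ) + 4)) := fun d k =>
    lt_min (abs_pos.2 d.2.1) (by positivity)
  have hdec : ∀ k, |(f (k + 1)).1.1| < |(f k).1.1| := by
    intro k
    rw [hfs k]
    exact (hF _ (hpos _ _)).1.trans_le (min_le_left _ _)
  have hanti : StrictAnti (fun k => |(f k).1.1|) := strictAnti_nat_of_succ_lt hdec
  have hsmall : ∀ k : ℕ, |(f k).1.1| < 1 / ((k : ℝ) + 3) ∧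
      |(f k).1.2 + √2| < 1 / ((k : ℝ) + 3) := by
    intro k
    cases k with
    | zero =>
      rw [hf0]
      have := hF (1 / 4) (by norm_num)
      have h3 : (1 : ℝ) / 4 < 1 / ((0 : ℕ) + 3) := by norm_num
      exact ⟨this.1.trans h3, this.2.trans h3⟩
    | succ k =>
      rw [hfs k]
      have h1 := hF _ (hpos (f k) k)
      have h2 : min |(f k).1.1| (1 / ((k : ℝ) + 4)) ≤ 1 / (((k + 1 : ℕ) : ℝ) + 3) := by
        refine (min_le_right _ _).trans (le_of_eq ?_)
        push_cast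
        congr 1
        ring
      exact ⟨h1.1.trans_le h2, h1.2.trans_le h2⟩
  refine ⟨fun k => Projectivization.mk ℝ (vv (f k).1.1 (f k).1.2) (vv_ne _ _), ?_,
    fun k => (f k).2.2, ?_⟩
  · -- injectivity
    intro j k hjk
    simp only at hjk
    rw [Projectivization.mk_eq_mk_iff'] at hjk
    obtain ⟨t, ht⟩ := hjk
    have e2 := congrFun ht 2
    have e1 := congrFun ht 1
    have e0 := congrFun ht 0
    simp only [vv, Psi, Pi.smul_apply, smul_eq_mul] at e0 e1 e2
    simp at e0 e1 e2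
    subst e2
    apply hanti.injective
    simp only
    have h1 : (f j).1.1 + (f j).1.2 = (f k).1.1 + (f k).1.2 := by linarith
    have h2 : (f j).1.1 * (f j).1.2 = (f k).1.1 * (f k).1.2 := by linarith
    have h3 : ((f j).1.1 - (f k).1.1) * ((f j).1.1 - (f k).1.2) = 0 := by
      have : (f j).1.2 = (f k).1.1 + (f k).1.2 - (f j).1.1 := by linarith
      rw [this] at h2
      linarith
    rcases mul_eq_zero.1 h3 with h4 | h4
    · congr 1
      linarith
    · exfalso
      have h5 := (hsmall j).1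
      have h6 := (hsmall k).2
      have h7 : (1 : ℝ) / ((j : ℝ) + 3) ≤ 1 / 3 := by
        apply one_div_le_one_div_of_le (by norm_num)
        have : (0 : ℝ) ≤ j := Nat.cast_nonneg j
        linarith
      have h8 : (1 : ℝ) / ((k : ℝ) + 3) ≤ 1 / 3 := by
        apply one_div_le_one_div_of_le (by norm_num)
        have : (0 : ℝ) ≤ k := Nat.cast_nonneg k
        linarith
      have h9 : (1 : ℝ) < √2 := Real.one_lt_sqrt_two
      rw [abs_lt] at h5 h6
      linarith [h5.1, h5.2, h6.1, h6.2]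
  · -- convergence
    have hz : Tendsto (fun k : ℕ => 1 / ((k : ℝ) + 3)) atTop (𝓝 0) := by
      have h1 : Tendsto (fun k : ℕ => (k : ℝ) + 3) atTop atTop :=
        tendsto_atTop_add_const_right _ _ tendsto_natCast_atTop_atTop
      have h2 := h1.inv_tendsto_atTop
      refine h2.congr fun k => ?_
      simp
    have ha : Tendsto (fun k => (f k).1.1) atTop (𝓝 0) :=
      squeeze_zero_norm (fun k => (hsmall k).1.le) hz
    have hb : Tendsto (fun k => (f k).1.2) atTop (𝓝 (-√2)) := by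
      have h1 : Tendsto (fun k => (f k).1.2 + √2) atTop (𝓝 0) :=
        squeeze_zero_norm (fun k => (hsmall k).2.le) hz
      have h2 := h1.sub_const √2
      simpa using h2
    have hcont : Continuous (fun x : ℝ × ℝ => vv x.1 x.2) := by
      unfold vv Psi
      refine continuous_pi fun i => ?_
      fin_cases i <;> simp <;> fun_prop
    have hv : Tendsto (fun k => vv (f k).1.1 (f k).1.2) atTop (𝓝 (vv 0 (-√2))) :=
      (hcont.tendsto (0, -√2)).comp (ha.prodMk_nhds hb)
    have hsub : Tendsto (fun k => (⟨vv (f k).1.1 (f k).1.2, vv_ne _ _⟩ :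
        {v : Fin 3 → ℝ // v ≠ 0})) atTop (𝓝 ⟨vv 0 (-√2), vv_ne _ _⟩) :=
      tendsto_subtype_rng.2 hv
    let _ := projTop 3
    have hmk : Continuous
        (fun v : {v : Fin 3 → ℝ // v ≠ 0} => Projectivization.mk ℝ v.1 v.2) :=
      continuous_coinduced_rng
    exact (hmk.tendsto _).comp hsub

/-! ### The limit direction is not a limit root -/

/-- `w` is given by an integral matrix of determinant `±1` -/
def IntEnd (w : Module.End ℝ (Fin 3 → ℝ)) : Prop :=
  ∃ N : Matrix (Fin 3) (Fin 3) ℤ, (N.det = 1 ∨ N.det = -1) ∧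
    ∀ x, w x = (N.map (Int.castRingHom ℝ)).mulVec x

theorem intEnd_of_mem {w : Module.End ℝ (Fin 3 → ℝ)} (hw : w ∈ Wim M c) :
    IntEnd w ∧ ∀ x y, bil M c (w x) (w y) = bil M c x y := by
  unfold Wim at hw
  induction hw using Submonoid.closure_induction with
  | mem w hw =>
    obtain ⟨s, rfl⟩ := hw
    fin_cases s
    · refine ⟨⟨!![-1, 2, 0; 0, 1, 0; 0, 0, 1], Or.inr (by decide), fun x => ?_⟩, fun x y => ?_⟩
      · change refl M c 0 x = _
        rw [refl0]
        ext i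
        fin_cases i <;> simp [Matrix.mulVec, dotProduct, Fin.sum_univ_three]
        ring
      · change bil M c (refl M c 0 x) (refl M c 0 y) = _
        rw [refl0, refl0, bil_eq, bil_eq]
        simp
        ring
    · refine ⟨⟨!![1, 0, 0; 2, -1, 1; 0, 0, 1], Or.inr (by decide), fun x => ?_⟩, fun x y => ?_⟩
      · change refl M c 1 x = _
        rw [refl1]
        ext i
        fin_cases i <;> simp [Matrix.mulVec, dotProduct, Fin.sum_univ_three]
        ring
      · change bil M c (refl M c 1 x) (refl M c 1 y) = _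
        rw [refl1, refl1, bil_eq, bil_eq]
        simp
        ring
    · refine ⟨⟨!![1, 0, 0; 0, 1, 0; 0, 1, -1], Or.inr (by decide), fun x => ?_⟩, fun x y => ?_⟩
      · change refl M c 2 x = _
        rw [refl2]
        ext i
        fin_cases i <;> simp [Matrix.mulVec, dotProduct, Fin.sum_univ_three]
        ring
      · change bil M c (refl M c 2 x) (refl M c 2 y) = _
        rw [refl2, refl2, bil_eq, bil_eq]
        simp
        ring
  | one =>
    refine ⟨⟨1, Or.inl Matrix.det_one, fun x => ?_⟩, fun x y => rfl⟩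
    simp
  | mul w v _ _ hw hv =>
    obtain ⟨⟨N, hN, h1⟩, h2⟩ := hw
    obtain ⟨⟨K, hK, h3⟩, h4⟩ := hv
    refine ⟨⟨N * K, ?_, fun x => ?_⟩, fun x y => ?_⟩
    · rw [Matrix.det_mul]
      rcases hN with h | h <;> rcases hK with h' | h' <;> simp [h, h']
    · rw [Module.End.mul_apply, h1, h3, Matrix.mulVec_mulVec, ← Matrix.map_mul]
    · rw [Module.End.mul_apply, Module.End.mul_apply, h2, h4]

theorem bil_pos_sq {v : Fin 3 → ℝ} (hv : v ≠ 0) : 0 < ∑ i, v i ^ 2 := by
  by_contra h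
  apply hv
  have h0 : ∀ i, 0 ≤ v i ^ 2 := fun i => sq_nonneg _
  have h1 : ∑ i, v i ^ 2 = 0 := le_antisymm (not_lt.1 h) (Finset.sum_nonneg fun i _ => h0 i)
  ext i
  have := (Finset.sum_eq_zero_iff_of_nonneg fun i _ => h0 i).1 h1 i (Finset.mem_univ i)
  simpa using this

/-- the continuous function `B(v, v) / |v|²` on the projective space -/
noncomputable def FF : ℙ ℝ (Fin 3 → ℝ) → ℝ :=
  Projectivization.lift (fun v => bil M c v.1 v.1 / ∑ i, v.1 i ^ 2) (by
    intro a b t h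
    have ht : t ≠ 0 := by
      rintro rfl
      exact a.2 (by rw [h, zero_smul])
    have h1 : bil M c a.1 a.1 = t ^ 2 * bil M c b.1 b.1 := by
      rw [h, bil_eq, bil_eq]
      simp only [Pi.smul_apply, smul_eq_mul]
      ring
    have h2 : ∑ i, a.1 i ^ 2 = t ^ 2 * ∑ i, b.1 i ^ 2 := by
      rw [h, Finset.mul_sum]
      refine Finset.sum_congr rfl fun i _ => ?_
      simp only [Pi.smul_apply, smul_eq_mul]
      ring
    rw [h1, h2, mul_div_mul_left _ _ (pow_ne_zero 2 ht)])

theorem FF_mk (v : Fin 3 → ℝ) (hv : v ≠ 0) :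
    FF (Projectivization.mk ℝ v hv) = bil M c v v / ∑ i, v i ^ 2 :=
  Projectivization.lift_mk _ _ v hv

theorem FF_cont : @Continuous _ _ (projTop 3) _ FF := by
  let _ := projTop 3
  rw [continuous_coinduced_dom]
  have : (FF ∘ fun v : {v : Fin 3 → ℝ // v ≠ 0} => Projectivization.mk ℝ v.1 v.2) =
      fun v : {v : Fin 3 → ℝ // v ≠ 0} => bil M c v.1 v.1 / ∑ i, v.1 i ^ 2 := by
    funext v
    exact FF_mk v.1 v.2
  rw [this]
  have hc : ∀ i : Fin 3, Continuous fun v : {v : Fin 3 → ℝ // v ≠ 0} => v.1 i := fun i =>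
    (continuous_apply i).comp continuous_subtype_val
  refine Continuous.div ?_ ?_ fun v => (bil_pos_sq v.2).ne'
  · simp only [bil_eq]
    exact (((((hc 0).mul (hc 0)).add ((hc 1).mul (hc 1))).add ((hc 2).mul (hc 2))).sub
      (((hc 0).mul (hc 1)).add ((hc 1).mul (hc 0)))).sub
      (continuous_const.mul (((hc 1).mul (hc 2)).add ((hc 2).mul (hc 1))))
  · exact continuous_finsetSum _ fun i _ => (hc i).pow 2

theorem not_limitRoot (v : Fin 3 → ℝ) (hv : v ≠ 0) (hpos : 0 < bil M c v v) :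
    Projectivization.mk ℝ v hv ∉ EPhi M c := by
  rintro ⟨s, hs, y, hinj, horb, hlim⟩
  let _ := projTop 3
  have hF : Tendsto (fun k => FF (y k)) atTop (𝓝 (FF (Projectivization.mk ℝ v hv))) :=
    (FF_cont.tendsto _).comp hlim
  set L := FF (Projectivization.mk ℝ v hv) with hL
  have hLpos : 0 < L := by
    rw [hL, FF_mk]
    exact div_pos hpos (bil_pos_sq hv)
  -- integral representatives
  have hm : ∀ k, ∃ m : Fin 3 → ℤ, ∃ h : (fun i => (m i : ℝ)) ≠ 0,
      y k = Projectivization.mk ℝ (fun i => (m i : ℝ)) h ∧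
      bil M c (fun i => (m i : ℝ)) (fun i => (m i : ℝ)) = 1 := by
    intro k
    obtain ⟨w, hw, u, hu, hwu, h1, h2⟩ := horb k
    obtain ⟨⟨N, hN, h3⟩, h4⟩ := intEnd_of_mem hw
    have h5 : w (root s) = fun i => ((N i s : ℤ) : ℝ) := by
      rw [h3, root]
      ext i
      simp [Matrix.mulVec_single]
    have h6 : bil M c (root s) (root s) = 1 := by
      rw [bil_eq]
      fin_cases s <;> simp [root]
    have h7 : bil M c (fun i => ((N i s : ℤ) : ℝ)) (fun i => ((N i s : ℤ) : ℝ)) = 1 := by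
      rw [← h5, h4, h6]
    have h8 : (fun i => ((N i s : ℤ) : ℝ)) ≠ 0 := by
      intro h
      rw [h, bil_eq] at h7
      simp at h7
    refine ⟨fun i => N i s, h8, ?_, h7⟩
    rw [h2, Projectivization.mk_eq_mk_iff']
    rw [Projectivization.mk_eq_mk_iff'] at h1
    obtain ⟨t, ht⟩ := h1
    have ht0 : t ≠ 0 := by
      rintro rfl
      rw [zero_smul] at ht
      exact hs ht.symm
    refine ⟨t⁻¹, ?_⟩
    rw [← h5, ← ht, map_smul, smul_smul, inv_mul_cancel₀ ht0, one_smul]
  choose m hm0 hm1 hm2 using hm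
  obtain ⟨K, hK⟩ := eventually_atTop.1 (hF.eventually (lt_mem_nhds (half_lt_self hLpos)))
  obtain ⟨R, hR⟩ := exists_nat_gt (2 / L)
  have hbd : ∀ k, K ≤ k → ∀ i, m k i ∈ Finset.Icc (-(R : ℤ)) R := by
    intro k hk i
    have h1 := hK k hk
    rw [hm1 k, FF_mk, hm2 k, lt_div_iff₀ (bil_pos_sq (hm0 k))] at h1
    have h2 : ((m k i : ℝ)) ^ 2 ≤ ∑ i, ((m k i : ℝ)) ^ 2 :=
      Finset.single_le_sum (f := fun i => ((m k i : ℝ)) ^ 2) (fun i _ => sq_nonneg _)
        (Finset.mem_univ i)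
    have h3 : ∑ i, ((m k i : ℝ)) ^ 2 < 2 / L := by
      rw [lt_div_iff₀ hLpos]
      linarith
    have h4 : ((m k i : ℝ)) ^ 2 < R := by linarith
    have h5 : (m k i) ^ 2 < (R : ℤ) := by exact_mod_cast h4
    rw [Finset.mem_Icc]
    constructor <;> nlinarith
  have hfin : Set.Finite (Set.range fun k : ℕ => m (K + k)) := by
    refine Set.Finite.subset (Set.Finite.pi' (t := fun _ => (Finset.Icc (-(R : ℤ)) R : Set ℤ))
      fun i => Finset.finite_toSet _) ?_
    rintro _ ⟨k, rfl⟩ i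
    exact_mod_cast hbd (K + k) (Nat.le_add_right _ _) i
  have hinj' : Function.Injective fun k : ℕ => m (K + k) := by
    intro j k hjk
    simp only at hjk
    have h1 : y (K + j) = y (K + k) := by
      rw [hm1, hm1]
      congr 1
      rw [hjk]
    exact Nat.add_left_cancel (hinj h1)
  exact Set.infinite_range_of_injective hinj' hfin

/-! ### The limit direction is not in a unimodular subspace -/

theorem bil_vv (x : Fin 3 → ℝ) (hx : bil M c x x = 0) (h : bil M c (vv 0 (-√2)) x = 0) :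
    (∃ t : ℝ, x = t • (fun _ => 1)) ∨ ∃ t : ℝ, x = t • ![6 + 2 * √2, 6, 2] := by
  have h2 : √2 * √2 = 2 := Real.mul_self_sqrt (by norm_num)
  rw [bil_eq] at hx h
  simp only [vv, Psi] at h
  simp at h
  have e1 : √2 * (x 0 - x 1) = x 1 - x 2 := by linarith
  have e2 : (x 0 - x 1) * (x 0 - x 1) = x 2 * (x 1 - x 2) := by linarith
  have e3 : (x 0 - x 1) * ((x 0 - x 1) - √2 * x 2) = 0 := by
    rw [mul_sub, e2, ← e1]
    ring
  rcases mul_eq_zero.1 e3 with h3 | h3
  · left
    refine ⟨x 1, ?_⟩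
    rw [h3, mul_zero] at e1
    ext i
    fin_cases i <;> simp <;> linarith
  · right
    refine ⟨x 2 / 2, ?_⟩
    have h4 : x 0 - x 1 = √2 * x 2 := by linarith
    rw [h4, ← mul_assoc, h2] at e1
    ext i
    fin_cases i <;> simp <;> linarith

theorem eigen_int {w : Module.End ℝ (Fin 3 → ℝ)} (hw : w ∈ Wim M c) {a t : ℝ} (ht : t ≠ 0)
    (h : w (t • (fun _ => 1)) = a • (t • (fun _ => 1))) : |a| = 1 := by
  obtain ⟨⟨N, hN, h1⟩, -⟩ := intEnd_of_mem hw
  have h2 : w (fun _ => 1) = a • (fun _ => 1) := by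
    rw [map_smul, smul_comm] at h
    exact smul_right_injective _ ht h
  have h3 : ∀ i, ((N.mulVec (fun _ => 1) i : ℤ) : ℝ) = a := by
    intro i
    have h4 := congrFun h2 i
    rw [h1] at h4
    simp only [Pi.smul_apply, smul_eq_mul, mul_one] at h4
    rw [← h4]
    simp [Matrix.mulVec, dotProduct]
  set k : ℤ := N.mulVec (fun _ => 1) 0 with hk
  have h5 : N.mulVec (fun _ => 1) = k • (fun _ => (1 : ℤ)) := by
    ext i
    have : ((N.mulVec (fun _ => 1) i : ℤ) : ℝ) = (k : ℝ) := by rw [h3, h3]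
    have h6 : N.mulVec (fun _ => 1) i = k := by exact_mod_cast this
    rw [h6]
    simp
  have h6 : N.det • (fun _ : Fin 3 => (1 : ℤ)) = k • (N.adjugate.mulVec (fun _ => 1)) := by
    rw [← Matrix.mulVec_smul, ← h5, Matrix.mulVec_mulVec, Matrix.adjugate_mul,
      Matrix.smul_mulVec, Matrix.one_mulVec]
  have h7 : k ∣ N.det := by
    have := congrFun h6 0
    simp only [Pi.smul_apply, smul_eq_mul, mul_one] at this
    exact ⟨_, this⟩
  have h8 : IsUnit k := by
    apply isUnit_of_dvd_unit h7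
    rcases hN with h | h <;> rw [h]
    · exact isUnit_one
    · exact isUnit_one.neg
  rw [← h3 0, ← hk]
  have := Int.isUnit_iff_abs_eq.1 h8
  exact_mod_cast this

theorem not_Uhyp : Projectivization.mk ℝ (vv 0 (-√2)) (vv_ne 0 (-√2)) ∉ Uhyp M c := by
  rintro ⟨w, hw, x, y, ⟨hx, hy, a, b, ha, hb, hab, hxa, hyb⟩, v, hv, hp, hvx, hvy⟩
  obtain ⟨-, h4⟩ := intEnd_of_mem hw
  rw [Projectivization.mk_eq_mk_iff'] at hp
  obtain ⟨t, ht⟩ := hp
  have hbs : ∀ (t : ℝ) (x y : Fin 3 → ℝ), bil M c (t • x) y = t * bil M c x y := by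
    intro t x y
    rw [bil_eq, bil_eq]
    simp only [Pi.smul_apply, smul_eq_mul]
    ring
  have hbs' : ∀ (a : ℝ) (x : Fin 3 → ℝ), bil M c (a • x) (a • x) = a ^ 2 * bil M c x x := by
    intro a x
    rw [bil_eq, bil_eq]
    simp only [Pi.smul_apply, smul_eq_mul]
    ring
  have hnull : ∀ (a : ℝ) (x : Fin 3 → ℝ), |a| ≠ 1 → w x = a • x → bil M c x x = 0 := by
    intro a x ha hxa
    have h5 := h4 x x
    rw [hxa, hbs'] at h5
    have h6 : (a ^ 2 - 1) * bil M c x x = 0 := by linarith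
    rcases mul_eq_zero.1 h6 with h7 | h7
    · exfalso
      apply ha
      have : |a| ^ 2 = 1 := by rw [sq_abs]; linarith
      have h8 : (|a| - 1) * (|a| + 1) = 0 := by linarith [this]
      rcases mul_eq_zero.1 h8 with h9 | h9
      · linarith
      · have := abs_nonneg a
        linarith
    · exact h7
  have hx1 := bil_vv x (hnull a x ha.ne' hxa) (by rw [← ht, hbs, hvx, mul_zero])
  have hy1 := bil_vv y (hnull b y hb hyb) (by rw [← ht, hbs, hvy, mul_zero])
  rcases hx1 with ⟨r, rfl⟩ | ⟨r, rfl⟩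
  · have hr : r ≠ 0 := by
      rintro rfl
      exact hx (zero_smul _ _)
    exact ha.ne' (eigen_int hw hr hxa)
  rcases hy1 with ⟨s, rfl⟩ | ⟨s, rfl⟩
  · have hs : s ≠ 0 := by
      rintro rfl
      exact hy (zero_smul _ _)
    exact hb (eigen_int hw hs hyb)
  · have hr : r ≠ 0 := by
      rintro rfl
      exact hx (zero_smul _ _)
    have hs : s ≠ 0 := by
      rintro rfl
      exact hy (zero_smul _ _)
    apply hab
    rw [map_smul, smul_comm] at hxa hyb
    have e1 := smul_right_injective _ hr hxa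
    have e2 := smul_right_injective _ hs hyb
    rw [e1] at e2
    have e3 := congrFun e2 2
    simp at e3
    exact e3

/-- **Some space-like limit direction is not in a unimodular subspace.**  There is a Lorentzian
geometric Coxeter system of rank `3` (that of `PGL(2, ℤ)`) with a limit direction which lies
neither in `𝒰_hyp` nor in `E_Φ`; so `E_V ≠ 𝒰_hyp ⊔ E_Φ`. -/
theorem result : ∃ (M : CoxeterMatrix (Fin 3)) (c : Fin 3 → Fin 3 → ℝ),
    IsGeometric M c ∧ IsLorentzian M c ∧ ∃ p ∈ EV M c, p ∉ Uhyp M c ∧ p ∉ EPhi M c := by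
  refine ⟨M, c, geometric, lorentzian, Projectivization.mk ℝ (vv 0 (-√2)) (vv_ne 0 (-√2)),
    target_limit, not_Uhyp, not_limitRoot _ _ ?_⟩
  have h2 : √2 * √2 = 2 := Real.mul_self_sqrt (by norm_num)
  rw [bil_eq]
  simp only [vv, Psi]
  simp
  nlinarith

end Pool.Agent.Results.MP_de6c1e_al.SpacelikeLimit
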